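import Mathlib

/-! Varieties of associative algebras without unit, and algebras finitely presented in them. -/

set_option autoImplicit false

namespace Pool.Agent.H533W

/-- A monomial in the letters `X`: a nonempty word, given by its first letter and the list of the
remaining letters. -/
abbrev Wd (X : Type) : Type := X × List X

/-- The value of a word. -/
def wv {A : Type*} [Mul A] {X : Type} (x : X → A) (w : Wd X) : A :=
  w.2.foldl (fun s i => s * x i) (x w.1)

/-- The free associative algebra without unit over `K` on the generators `X`. -/
abbrev Fr (K X : Type) [Field K] : Type := MonoidAlgebra K (FreeSemigroup X)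

section
variable {K X : Type} [Field K]

/-- The word `w` as an element of the free algebra. -/
noncomputable def mon (K : Type) [Field K] {X : Type} (w : Wd X) : Fr K X :=
  MonoidAlgebra.single ⟨w.1, w.2⟩ 1

/-- The homomorphism from the free algebra to `A` that maps the generators as prescribed. -/
noncomputable def evalAt {A : Type} [NonUnitalRing A] [Module K A] [IsScalarTower K A A]
    [SMulCommClass K A A] (x : X → A) : Fr K X →ₙₐ[K] A :=
  MonoidAlgebra.liftMagma K (FreeSemigroup.lift x)

/-- `A` satisfies all the identities in `E`, a set of elements of the free algebra on the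
variables `x_0, x_1, x_2, …`. The algebras with this property form a variety, and every variety
is of this form. -/
def Sat (E : Set (Fr K ℕ)) (A : Type) [NonUnitalRing A] [Module K A] [IsScalarTower K A A]
    [SMulCommClass K A A] : Prop :=
  ∀ f ∈ E, ∀ x : ℕ → A, evalAt x f = 0

/-- The two identities `x[y,z][t,u]v = 0` and `x[y,z,t]u = 0` hold in `A`. -/
def InW (A : Type) [NonUnitalRing A] : Prop :=
  (∀ x y z t u v : A, x * (y * z - z * y) * (t * u - u * t) * v = 0) ∧
  (∀ x y z t u : A, x * ((y * z - z * y) * t - t * (y * z - z * y)) * u = 0)

/-- The variety given by `E` contains the variety given by the two identities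
`x[y,z][t,u]v = 0` and `x[y,z,t]u = 0`. -/
def ContainsW (E : Set (Fr K ℕ)) : Prop :=
  ∀ (A : Type) [NonUnitalRing A] [Module K A] [IsScalarTower K A A] [SMulCommClass K A A],
    InW A → Sat E A

/-- The ideal of the free algebra on `X` generated by `R` together with all the values of the
identities in `E`. The quotient by this ideal is the algebra presented in the variety given by
`E` by the generators `X` and the relators `R`: the quotient of the relatively free algebra by
the ideal generated by (the images of the elements of) `R`. -/
inductive InIdeal (E : Set (Fr K ℕ)) (R : Set (Fr K X)) : Fr K X → Prop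
  | rel {f : Fr K X} (h : f ∈ R) : InIdeal E R f
  | ident {f : Fr K ℕ} (h : f ∈ E) (g : ℕ → Fr K X) : InIdeal E R (evalAt g f)
  | zero : InIdeal E R 0
  | add {f g : Fr K X} (hf : InIdeal E R f) (hg : InIdeal E R g) : InIdeal E R (f + g)
  | smul (c : K) {f : Fr K X} (hf : InIdeal E R f) : InIdeal E R (c • f)
  | mul_left (g : Fr K X) {f : Fr K X} (hf : InIdeal E R f) : InIdeal E R (g * f)
  | mul_right (g : Fr K X) {f : Fr K X} (hf : InIdeal E R f) : InIdeal E R (f * g)

end

/-- A noncommutative polynomial without constant term with coefficients in `R`, as a finite
object: a list of terms (coefficient, word). -/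
abbrev NC (R X : Type) : Type := List (R × Wd X)

/-- The element of the free algebra given by such a list; `κ` interprets the coefficients. -/
noncomputable def toFr {R K X : Type} [Field K] (κ : R → K) (c : NC R X) : Fr K X :=
  (c.map fun t => MonoidAlgebra.single ⟨t.2.1, t.2.2⟩ (κ t.1)).sum

/-- A coding of a field by natural numbers (every element has a code) for which addition,
multiplication, negation, inversion of nonzero elements and the test for equality are
computable. -/
structure Constructive (K : Type) [Field K] where
  ν : ℕ → K
  surj : Function.Surjective ν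
  add : ∃ f : ℕ → ℕ → ℕ, Computable₂ f ∧ ∀ a b, ν (f a b) = ν a + ν b
  mul : ∃ f : ℕ → ℕ → ℕ, Computable₂ f ∧ ∀ a b, ν (f a b) = ν a * ν b
  neg : ∃ f : ℕ → ℕ, Computable f ∧ ∀ a, ν (f a) = - ν a
  inv : ∃ f : ℕ → ℕ, Computable f ∧ ∀ a, ν a ≠ 0 → ν (f a) = (ν a)⁻¹
  eq : ComputablePred fun p : ℕ × ℕ => ν p.1 = ν p.2

/-- The word problem is decidable in the variety given by `E`: for every finite set of generators
and every finite list of relators there is an algorithm deciding, given (the code of) an element
of the free algebra, whether it is zero in the algebra presented in the variety. -/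
def WordProblemDecidable {K : Type} [Field K] (C : Constructive K) (E : Set (Fr K ℕ)) : Prop :=
  ∀ (m : ℕ) (rels : List (NC ℕ (Fin m))), ComputablePred fun f : NC ℕ (Fin m) =>
    InIdeal E {g | ∃ r ∈ rels, g = toFr C.ν r} (toFr C.ν f)

end Pool.Agent.H533W
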