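import Mathlib
import Pool.Agent.Helper344.DPRM

/-! A recursively enumerable set of natural numbers is described by an integral matrix pencil
that is linear in the unknowns. -/

set_option autoImplicit false

namespace Pool.Agent.H533W

open Nat.Partrec (Code)

/-- a term `(c, α, k)` stands for `c * ν_k * y_α` (and for `c * y_α` if `k = none`) -/
abbrev Tm (A γ : Type) : Type := ℤ × A × Option γ

/-- `ν` extended by the value one -/
def ex {γ : Type} (ν : γ → ℕ) : Option γ → ℕ := fun k => k.elim 1 ν

/-- value of a column -/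
def col {R : Type} [CommRing R] {A γ : Type} (ν : γ → ℕ) (y : A → R) (L : List (Tm A γ)) : R :=
  (L.map fun t => (t.1 : R) * (ex ν t.2.2 : R) * y t.2.1).sum

/-- relabelling of a column -/
def rel {A A' γ : Type} (f : A → A') (L : List (Tm A γ)) : List (Tm A' γ) :=
  L.map fun t => (t.1, f t.2.1, t.2.2)

theorem col_rel {R : Type} [CommRing R] {A A' γ : Type} (ν : γ → ℕ) (y : A' → R) (f : A → A')
    (L : List (Tm A γ)) : col ν y (rel f L) = col ν (y ∘ f) L := by
  simp [col, rel, Function.comp_def]

theorem col_smul {R : Type} [CommRing R] {A γ : Type} (ν : γ → ℕ) (y : A → R) (c : R)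
    (L : List (Tm A γ)) : col ν (fun α => c * y α) L = c * col ν y L := by
  unfold col
  rw [← List.sum_map_mul_left]
  congr 1
  apply List.map_congr_left
  intro t _
  ring

theorem col_cast {R : Type} [CommRing R] {A γ : Type} (ν : γ → ℕ) (y : A → ℤ)
    (L : List (Tm A γ)) : col ν (fun α => (y α : R)) L = ((col ν y L : ℤ) : R) := by
  unfold col
  induction L with
  | nil => simp
  | cons t L ih =>
    simp only [List.map_cons, List.sum_cons, ih]
    push_cast
    ring

/-- a straight line program for a polynomial function -/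
def Prog {γ : Type} (p : Poly γ) : Prop :=
  ∃ (B : Type) (_ : Fintype B) (C : B → List (Tm (Option B) γ)) (o : Option B), ∀ ν : γ → ℕ,
    (∃ y : Option B → ℤ, y none = 1 ∧ ∀ b, col ν y (C b) = 0) ∧
    (∀ y : Option B → ℚ, (∀ b, col ν y (C b) = 0) → y o = (p ν : ℚ) * y none)

theorem prog_val {γ B : Type} {p : Poly γ} {C : B → List (Tm (Option B) γ)} {o : Option B}
    {ν : γ → ℕ} (h : ∀ y : Option B → ℚ, (∀ b, col ν y (C b) = 0) → y o = (p ν : ℚ) * y none)
    (y : Option B → ℤ) (hy : ∀ b, col ν y (C b) = 0) : y o = p ν * y none := by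
  have := h (fun α => (y α : ℚ)) (fun b => by rw [col_cast, hy b]; simp)
  exact_mod_cast this

theorem prog_all {γ : Type} (p : Poly γ) : Prog p := by
  refine Poly.induction (C := Prog) ?_ ?_ ?_ ?_ p
  · intro i
    refine ⟨Unit, inferInstance, fun _ => [(1, some (), none), (-1, none, some i)], some (), ?_⟩
    intro ν
    refine ⟨⟨fun α => α.elim 1 (fun _ => ν i), rfl, ?_⟩, ?_⟩
    · intro b
      simp [col, ex]
    · intro y hy
      have := hy ()
      simp only [col, ex, List.map_cons, List.map_nil, List.sum_cons, List.sum_nil,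
        Option.elim_none, Option.elim_some] at this
      rw [Poly.proj_apply]
      push_cast at this ⊢
      linarith
  · intro n
    refine ⟨Unit, inferInstance, fun _ => [(1, some (), none), (-n, none, none)], some (), ?_⟩
    intro ν
    refine ⟨⟨fun α => α.elim 1 (fun _ => n), rfl, ?_⟩, ?_⟩
    · intro b
      simp [col, ex]
    · intro y hy
      have := hy ()
      simp only [col, ex, List.map_cons, List.map_nil, List.sum_cons, List.sum_nil,
        Option.elim_none] at this
      rw [Poly.const_apply]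
      push_cast at this ⊢
      linarith
  · rintro p1 p2 ⟨B₁, _, C₁, o₁, h₁⟩ ⟨B₂, _, C₂, o₂, h₂⟩
    let f1 : Option B₁ → Option (B₁ ⊕ B₂ ⊕ Unit) := Option.map Sum.inl
    let f2 : Option B₂ → Option (B₁ ⊕ B₂ ⊕ Unit) := Option.map (Sum.inr ∘ Sum.inl)
    refine ⟨B₁ ⊕ B₂ ⊕ Unit, inferInstance,
      Sum.elim (fun b => rel f1 (C₁ b)) (Sum.elim (fun b => rel f2 (C₂ b))
        (fun _ => [(1, some (Sum.inr (Sum.inr ())), none), (-1, f1 o₁, none), (1, f2 o₂, none)])),
      some (Sum.inr (Sum.inr ())), ?_⟩
    intro ν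
    obtain ⟨⟨y₁, e₁, c₁⟩, u₁⟩ := h₁ ν
    obtain ⟨⟨y₂, e₂, c₂⟩, u₂⟩ := h₂ ν
    refine ⟨⟨fun α => α.elim 1 (Sum.elim (fun b => y₁ (some b)) (Sum.elim (fun b => y₂ (some b))
      (fun _ => y₁ o₁ - y₂ o₂))), rfl, ?_⟩, ?_⟩
    · have g1 : ∀ α : Option B₁, (f1 α).elim 1 (Sum.elim (fun b => y₁ (some b))
          (Sum.elim (fun b => y₂ (some b)) (fun _ => y₁ o₁ - y₂ o₂))) = y₁ α := by
        rintro (_ | α)
        · exact e₁.symm
        · rfl
      have g2 : ∀ α : Option B₂, (f2 α).elim 1 (Sum.elim (fun b => y₁ (some b))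
          (Sum.elim (fun b => y₂ (some b)) (fun _ => y₁ o₁ - y₂ o₂))) = y₂ α := by
        rintro (_ | α)
        · exact e₂.symm
        · rfl
      rintro (b | b | b)
      · simp only [Sum.elim_inl, col_rel]
        rw [← c₁ b]
        congr 1
        funext α
        exact g1 α
      · simp only [Sum.elim_inl, Sum.elim_inr, col_rel]
        rw [← c₂ b]
        congr 1
        funext α
        exact g2 α
      · simp only [Sum.elim_inr, col, ex, List.map_cons, List.map_nil, List.sum_cons,
          List.sum_nil, Option.elim_none, g1, g2]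
        simp
    · intro y hy
      have v1 := u₁ (y ∘ f1) (fun b => by
        have := hy (Sum.inl b)
        simpa only [Sum.elim_inl, col_rel] using this)
      have v2 := u₂ (y ∘ f2) (fun b => by
        have := hy (Sum.inr (Sum.inl b))
        simpa only [Sum.elim_inl, Sum.elim_inr, col_rel] using this)
      have v3 := hy (Sum.inr (Sum.inr ()))
      simp only [Sum.elim_inr, col, ex, List.map_cons, List.map_nil, List.sum_cons,
        List.sum_nil, Option.elim_none] at v3
      simp only [Function.comp] at v1 v2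
      have n1 : f1 none = none := rfl
      have n2 : f2 none = none := rfl
      rw [n1] at v1
      rw [n2] at v2
      rw [Poly.sub_apply]
      push_cast at v3 ⊢
      rw [v1, v2] at v3
      linarith
  · rintro p1 p2 ⟨B₁, _, C₁, o₁, h₁⟩ ⟨B₂, _, C₂, o₂, h₂⟩
    let f1 : Option B₁ → Option (B₁ ⊕ B₂) := Option.map Sum.inl
    let f2 : Option B₂ → Option (B₁ ⊕ B₂) := fun α => α.elim (f1 o₁) (fun b => some (Sum.inr b))
    refine ⟨B₁ ⊕ B₂, inferInstance,
      Sum.elim (fun b => rel f1 (C₁ b)) (fun b => rel f2 (C₂ b)), f2 o₂, ?_⟩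
    intro ν
    obtain ⟨⟨y₁, e₁, c₁⟩, u₁⟩ := h₁ ν
    obtain ⟨⟨y₂, e₂, c₂⟩, u₂⟩ := h₂ ν
    refine ⟨⟨fun α => α.elim 1 (Sum.elim (fun b => y₁ (some b)) (fun b => y₁ o₁ * y₂ (some b))),
      rfl, ?_⟩, ?_⟩
    · have g1 : ∀ α : Option B₁, (f1 α).elim 1 (Sum.elim (fun b => y₁ (some b))
          (fun b => y₁ o₁ * y₂ (some b))) = y₁ α := by
        rintro (_ | α)
        · exact e₁.symm
        · rfl
      have g2 : ∀ α : Option B₂, (f2 α).elim 1 (Sum.elim (fun b => y₁ (some b))
          (fun b => y₁ o₁ * y₂ (some b))) = y₁ o₁ * y₂ α := by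
        rintro (_ | α)
        · show (f1 o₁).elim 1 _ = _
          rw [g1, e₂, mul_one]
        · rfl
      rintro (b | b)
      · simp only [Sum.elim_inl, col_rel]
        rw [← c₁ b]
        congr 1
        funext α
        exact g1 α
      · simp only [Sum.elim_inr, col_rel]
        have h5 : ((fun α : Option (B₁ ⊕ B₂) => α.elim 1 (Sum.elim (fun b => y₁ (some b))
            (fun b => y₁ o₁ * y₂ (some b)))) ∘ f2) = fun α => y₁ o₁ * y₂ α := by
          funext α
          exact g2 α
        rw [h5, col_smul, c₂ b, mul_zero]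
    · intro y hy
      have v1 := u₁ (y ∘ f1) (fun b => by
        have := hy (Sum.inl b)
        simpa only [Sum.elim_inl, col_rel] using this)
      have v2 := u₂ (y ∘ f2) (fun b => by
        have := hy (Sum.inr b)
        simpa only [Sum.elim_inr, col_rel] using this)
      simp only [Function.comp] at v1 v2
      have n1 : f1 none = none := rfl
      have n2 : f2 none = f1 o₁ := rfl
      rw [n1] at v1
      rw [n2] at v2
      rw [Poly.mul_apply, v2, v1]
      push_cast
      ring

variable {A J γ : Type}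

open Classical in
/-- coefficient of `ν_k y_α` in column `j` -/
noncomputable def cf (C : J → List (Tm A γ)) (α : A) (k : Option γ) (j : J) : ℤ :=
  ((C j).map fun t => if t.2.1 = α ∧ t.2.2 = k then t.1 else 0).sum

theorem col_eq [Fintype A] [Fintype γ] {R : Type} [CommRing R] (C : J → List (Tm A γ))
    (ν : γ → ℕ) (y : A → R) (j : J) :
    col ν y (C j) = ∑ α, ∑ k, (cf C α k j : R) * (ex ν k : R) * y α := by
  classical
  unfold col cf
  generalize C j = L
  induction L with
  | nil => simp
  | cons t L ih =>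
    simp only [List.map_cons, List.sum_cons, ih]
    push_cast
    simp only [add_mul, Finset.sum_add_distrib]
    congr 1
    rw [Finset.sum_eq_single t.2.1, Finset.sum_eq_single t.2.2]
    · simp
    · intro k _ hk
      simp [Ne.symm hk]
    · simp
    · intro α _ hα
      simp [Ne.symm hα]
    · simp

/-- a recursively enumerable set that is not computable -/
theorem exists_halting : ∃ S : ℕ → Prop, REPred S ∧ ¬ ComputablePred S := by
  refine ⟨fun n => (Code.eval (Denumerable.ofNat Code n) 0).Dom, ?_, ?_⟩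
  · have h1 : Partrec fun n : ℕ => Code.eval (Denumerable.ofNat Code n) 0 :=
      Code.eval_part.comp (Computable.ofNat Code) (Computable.const 0)
    exact h1.dom_re
  · intro h
    obtain ⟨f, hf, hfe⟩ := ComputablePred.computable_iff.1 h
    have h2 : ComputablePred fun c : Code =>
        (Code.eval (Denumerable.ofNat Code (Encodable.encode c)) 0).Dom :=
      ComputablePred.computable_iff.2 ⟨fun c => f (Encodable.encode c),
        hf.comp (Computable.encode (α := Code)), by
          funext c
          exact congrFun hfe (Encodable.encode c)⟩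
    refine ComputablePred.halting_problem 0 (h2.of_eq fun c => ?_)
    rw [Denumerable.ofNat_encode]

/-- the matrix pencil describing a set of natural numbers: a solution vector exists exactly when
the parameter is not in the set -/
structure Pen (S : ℕ → Prop) where
  γ : Type
  A : Type
  J : Type
  [fγ : Fintype γ]
  [fA : Fintype A]
  [fJ : Fintype J]
  i₀ : γ
  root : A
  c : A → Option γ → J → ℤ
  pos : ∀ n, S n → ∃ ν : γ → ℕ, ν i₀ = n ∧ ∃ y : A → ℤ, y root = 1 ∧
    ∀ j, ∑ α, ∑ k, c α k j * (ex ν k : ℤ) * y α = 0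
  neg : ∀ ν : γ → ℕ, ¬ S (ν i₀) → ∀ y : A → ℚ,
    (∀ j, ∑ α, ∑ k, (c α k j : ℚ) * (ex ν k : ℚ) * y α = 0) → y root = 0

attribute [instance] Pen.fγ Pen.fA Pen.fJ

theorem exists_pen (S : ℕ → Prop) (hS : REPred S) : Nonempty (Pen S) := by
  obtain ⟨δ, _, p, hp⟩ := Pool.Agent.Helper344.DP.finite_dummies
    (Pool.Agent.Helper344.DP.dprm hS)
  have hS : ∀ n, S n ↔ ∃ t, p (Sum.elim (fun _ => n) t) = 0 := fun n => hp (fun _ => n)
  obtain ⟨B, _, C, o, h⟩ := prog_all p
  let C' : Option B → List (Tm (Option B) (Unit ⊕ δ)) := fun j => j.elim [(1, o, none)] C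
  have hC' : ∀ {R : Type} [CommRing R] (ν : Unit ⊕ δ → ℕ) (y : Option B → R),
      (∀ j, col ν y (C' j) = 0) ↔ (∀ b, col ν y (C b) = 0) ∧ y o = 0 := by
    intro R _ ν y
    rw [Option.forall, and_comm]
    simp [C', col, ex]
  refine ⟨@Pen.mk S (Unit ⊕ δ) (Option B) (Option B) inferInstance inferInstance inferInstance
    (Sum.inl ()) none (cf C') ?_ ?_⟩
  · intro n hn
    obtain ⟨t, ht⟩ := (hS n).1 hn
    obtain ⟨⟨y, e, c⟩, u⟩ := h (Sum.elim (fun _ => n) t)
    refine ⟨Sum.elim (fun _ => n) t, rfl, y, e, ?_⟩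
    have h1 := prog_val u y c
    have h2 := (hC' (Sum.elim (fun _ => n) t) y).2 ⟨c, by rw [h1, ht, zero_mul]⟩
    intro j
    rw [← h2 j, col_eq]
    simp
  · intro ν hν y hy
    have h2 : ∀ j, col ν y (C' j) = 0 := fun j => by rw [col_eq]; exact hy j
    obtain ⟨c, e⟩ := (hC' ν y).1 h2
    have h3 := (h ν).2 y c
    rw [e] at h3
    have h4 : p ν ≠ 0 := by
      intro h5
      apply hν
      refine (hS _).2 ⟨ν ∘ Sum.inr, ?_⟩
      have : Sum.elim (fun _ => ν (Sum.inl ())) (ν ∘ Sum.inr) = ν := by
        funext i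
        rcases i with i | i
        · rfl
        · rfl
      rw [this, h5]
    have h5 : (p ν : ℚ) ≠ 0 := by exact_mod_cast h4
    rcases mul_eq_zero.1 h3.symm with h6 | h6
    · exact absurd h6 h5
    · exact h6

/-- solutions of the dual system -/
theorem Pen.dual {S : ℕ → Prop} (P : Pen S) (ν : P.γ → ℕ) (h : ¬ S (ν P.i₀)) :
    ∃ x : P.J → ℚ, ∀ α, (∑ j, ∑ k, (P.c α k j : ℚ) * (ex ν k : ℚ) * x j) +
      (open Classical in if α = P.root then 1 else 0) = 0 := by
  classical
  let v : P.J → (P.A → ℚ) := fun j α => ∑ k, (P.c α k j : ℚ) * (ex ν k : ℚ)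
  let W : Submodule ℚ (P.A → ℚ) := Submodule.span ℚ (Set.range v)
  let b : P.A → ℚ := Pi.single P.root 1
  have hb : b ∈ W := by
    by_contra hb
    obtain ⟨f, hf, hle⟩ := Submodule.exists_le_ker_of_notMem hb
    apply hf
    have e1 : ∀ g : P.A → ℚ, f g = ∑ α, g α * f (Pi.single α 1) := by
      intro g
      conv_lhs => rw [← Finset.univ_sum_single g]
      rw [map_sum]
      apply Finset.sum_congr rfl
      intro α _
      rw [← smul_eq_mul, ← map_smul]
      congr 1
      ext β
      by_cases hh : β = α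
      · subst hh; simp
      · simp [hh]
    have e2 := P.neg ν h (fun α => f (Pi.single α 1)) (fun j => by
      have h3 : f (v j) = 0 := hle (Submodule.subset_span ⟨j, rfl⟩)
      rw [e1] at h3
      rw [← h3]
      apply Finset.sum_congr rfl
      intro α _
      simp only [v]
      rw [Finset.sum_mul])
    exact e2
  obtain ⟨c, hc⟩ := (Submodule.mem_span_range_iff_exists_fun ℚ).1 hb
  refine ⟨fun j => - c j, fun α => ?_⟩
  have h1 := congrFun hc α
  simp only [Finset.sum_apply, Pi.smul_apply, smul_eq_mul, v, b, Pi.single_apply] at h1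
  rw [← h1, ← Finset.sum_add_distrib]
  apply Finset.sum_eq_zero
  intro j _
  rw [Finset.mul_sum, ← Finset.sum_add_distrib]
  apply Finset.sum_eq_zero
  intro k _
  ring

end Pool.Agent.H533W
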