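import Mathlib
import Pool.Agent.H533W.Pencil
import Pool.Agent.H533W.Defs

/-! The relators and the derivation. -/

set_option autoImplicit false

namespace Pool.Agent.H533W

open Finset

/-- the generators -/
inductive Gen (γ J : Type) : Type
  | l (j : J)
  | l'
  | r
  | a (k : γ)
  | t (k : γ)
  | e

open Gen

variable {S : ℕ → Prop}

open Classical in
/-- the defining relations -/
structure Rels (P : Pen S) {A : Type} [NonUnitalRing A] (x : Gen P.γ P.J → A) : Prop where
  ra : ∀ i k, x (a i) * x (t k) - x (t k) * x (a i) - (if i = k then x e * x (a i) else 0) = 0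
  rb : ∀ k, x (a k) * x e - x e * x (a k) = 0
  rc : ∀ k, x (t k) * x r = 0
  rd : ∀ α, (∑ j, P.c α none j • (x (l j) * x e)) -
    (∑ j, ∑ k, P.c α (some k) j • (x (l j) * x (t k))) +
    (if α = P.root then x l' * x e else 0) = 0
  re : ∀ k, k ≠ P.i₀ → x l' * x (a k) - x l' = 0

/-- the word `l' e a^n r` -/
def uw (P : Pen S) (n : ℕ) : Wd (Gen P.γ P.J) := (l', e :: (List.replicate n (a P.i₀) ++ [r]))

section
variable {P : Pen S} {A : Type} [NonUnitalRing A] {x : Gen P.γ P.J → A}

/-- the element `a_{k_1} ⋯ a_{k_s} r` -/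
def mr (x : Gen P.γ P.J → A) (L : List P.γ) : A := L.foldr (fun i s => x (a i) * s) (x r)

theorem foldl_eq (x : Gen P.γ P.J → A) (L : List P.γ) (s : A) :
    ((L.map a) ++ [r]).foldl (fun s i => s * x i) s = s * mr x L := by
  induction L generalizing s with
  | nil => simp [mr]
  | cons k L ih =>
    simp only [List.map_cons, List.cons_append, List.foldl_cons, ih]
    simp only [mr, List.foldr_cons, mul_assoc]

theorem wv_uw (n : ℕ) : wv x (uw P n) = x l' * x e * mr x (List.replicate n P.i₀) := by
  rw [uw, wv, List.foldl_cons, ← foldl_eq]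
  simp [List.map_replicate]

open Classical in
theorem t_mr (h : Rels P x) (L : List P.γ) (k : P.γ) :
    x (t k) * mr x L = -(L.count k • (x e * mr x L)) := by
  induction L with
  | nil => simp [mr, h.rc]
  | cons i L ih =>
    have h1 := h.ra i k
    have h2 := h.rb i
    have e1 : x (t k) * x (a i) = x (a i) * x (t k) - (if i = k then x e * x (a i) else 0) := by
      rw [sub_sub, sub_eq_zero] at h1
      rw [h1, add_sub_cancel_right]
    have e2 : x (a i) * x e = x e * x (a i) := sub_eq_zero.1 h2
    have e3 : mr x (i :: L) = x (a i) * mr x L := rfl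
    rw [e3, ← mul_assoc, e1, sub_mul, mul_assoc, ih, mul_neg, mul_smul_comm, ← mul_assoc, e2,
      mul_assoc, List.count_cons]
    by_cases hik : i = k
    · subst hik
      simp only [if_true, beq_self_eq_true, add_smul, one_smul]
      rw [mul_assoc]
      abel
    · simp [hik]

theorem ev_mr (h : Rels P x) (L : List P.γ) (hL : ∀ k ∈ L, k ≠ P.i₀) (M : List P.γ) :
    x l' * x e * mr x (L ++ M) = x l' * x e * mr x M := by
  induction L with
  | nil => rfl
  | cons i L ih =>
    have h2 : x (a i) * x e = x e * x (a i) := sub_eq_zero.1 (h.rb i)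
    have h3 : x l' * x (a i) = x l' := sub_eq_zero.1 (h.re i (hL i List.mem_cons_self))
    have e3 : mr x (i :: L ++ M) = x (a i) * mr x (L ++ M) := rfl
    rw [e3, ← mul_assoc, mul_assoc (x l'), ← h2, ← mul_assoc, h3, ih
      (fun k hk => hL k (List.mem_cons_of_mem _ hk))]

open Classical in
theorem exists_list (ν : P.γ → ℕ) : ∃ L : List P.γ, (∀ k ∈ L, k ≠ P.i₀) ∧
    ∀ k, (L ++ List.replicate (ν P.i₀) P.i₀).count k = ν k := by
  let m : Multiset P.γ := ∑ k ∈ univ.erase P.i₀, ν k • ({k} : Multiset P.γ)
  have hm : ∀ k, m.count k = if k = P.i₀ then 0 else ν k := by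
    intro k
    simp only [m, Multiset.count_sum', Multiset.count_nsmul, Multiset.count_singleton]
    by_cases hk : k = P.i₀
    · rw [if_pos hk]
      apply Finset.sum_eq_zero
      intro i hi
      have : k ≠ i := by
        rintro rfl
        exact (Finset.ne_of_mem_erase hi) hk
      simp [this]
    · rw [if_neg hk, Finset.sum_eq_single k]
      · simp
      · intro i _ hi
        simp [Ne.symm hi]
      · intro hk2
        exact absurd (Finset.mem_erase.2 ⟨hk, mem_univ _⟩) hk2
  refine ⟨m.toList, ?_, ?_⟩
  · intro k hk hk0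
    have h1 : 0 < m.count k := Multiset.count_pos.2 (Multiset.mem_toList.1 hk)
    rw [hm k, if_pos hk0] at h1
    exact lt_irrefl _ h1
  · intro k
    rw [List.count_append, List.count_replicate]
    have : m.toList.count k = m.count k := by
      conv_rhs => rw [← Multiset.coe_toList m]
      rw [Multiset.coe_count]
    rw [this, hm]
    by_cases hk : k = P.i₀
    · subst hk; simp
    · simp [hk, Ne.symm hk]

theorem derive (h : Rels P x) (n : ℕ) (hn : S n) : wv x (uw P n) = 0 := by
  classical
  obtain ⟨ν, hν, y, hy, hc⟩ := P.pos n hn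
  obtain ⟨L, hL, hcount⟩ := exists_list ν
  set M := L ++ List.replicate (ν P.i₀) P.i₀ with hM
  have hfin : x l' * x e * mr x M = x l' * x e * mr x (List.replicate (ν P.i₀) P.i₀) :=
    ev_mr h L hL _
  rw [wv_uw, ← hν, ← hfin]
  -- the linear relations
  have hlin : ∀ α, (∑ j, (∑ k, P.c α k j * (ex ν k : ℤ)) • (x (l j) * x e * mr x M)) +
      (if α = P.root then x l' * x e * mr x M else 0) = 0 := by
    intro α
    have h1 := congrArg (fun z => z * mr x M) (h.rd α)
    simp only [add_mul, sub_mul, Finset.sum_mul, smul_mul_assoc, zero_mul] at h1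
    refine Eq.trans ?_ h1
    congr 1
    · rw [← Finset.sum_sub_distrib]
      apply Finset.sum_congr rfl
      intro j _
      rw [Fintype.sum_option, add_smul, sub_eq_add_neg]
      congr 1
      · simp [ex]
      · rw [Finset.sum_smul, ← Finset.sum_neg_distrib]
        apply Finset.sum_congr rfl
        intro k _
        rw [mul_assoc (x (l j)) (x (t k)), t_mr h, hcount, mul_neg, mul_smul_comm, ← mul_assoc,
          smul_neg, neg_neg, mul_smul]
        simp [ex]
    · split_ifs <;> simp
  have h2 : ∑ α, y α • ((∑ j, (∑ k, P.c α k j * (ex ν k : ℤ)) • (x (l j) * x e * mr x M)) +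
      (if α = P.root then x l' * x e * mr x M else 0)) = 0 :=
    Finset.sum_eq_zero fun α _ => by rw [hlin α, smul_zero]
  simp only [smul_add, Finset.sum_add_distrib, Finset.smul_sum] at h2
  rw [Finset.sum_comm] at h2
  have h3 : ∑ j, ∑ α, y α • ((∑ k, P.c α k j * (ex ν k : ℤ)) • (x (l j) * x e * mr x M)) = 0 := by
    apply Finset.sum_eq_zero
    intro j _
    simp only [smul_smul]
    rw [← Finset.sum_smul]
    have : ∑ α, y α * ∑ k, P.c α k j * (ex ν k : ℤ) = 0 := by
      rw [← hc j]
      apply Finset.sum_congr rfl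
      intro α _
      rw [Finset.mul_sum]
      apply Finset.sum_congr rfl
      intro k _
      ring
    rw [this, zero_smul]
  rw [h3, zero_add, Finset.sum_eq_single P.root] at h2
  · rw [if_pos rfl, hy, one_smul] at h2
    exact h2
  · intro α _ hα
    simp [hα]
  · simp

end

end Pool.Agent.H533W
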