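import Mathlib
import Pool.Agent.H533W.Deriv

/-! The model. -/

set_option autoImplicit false

namespace Pool.Agent.H533W

open Finset MvPolynomial Gen

section basic

variable {K Λ : Type} [Field K] [CommRing Λ] [Algebra K Λ]

/-- the action of the middle part -/
def mid (s : Λ) (D : Derivation K Λ Λ) (c : Λ) : (Λ × Λ) →ₗ[K] (Λ × Λ) where
  toFun p := (s * p.1, D p.1 + c * p.1 + s * p.2)
  map_add' p q := by
    ext
    · simp [mul_add]
    · simp only [Prod.fst_add, Prod.snd_add, map_add, mul_add]; ring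
  map_smul' k p := by
    ext
    · simp
    · simp [smul_add]

theorem mid_apply (s : Λ) (D : Derivation K Λ Λ) (c : Λ) (p : Λ × Λ) :
    mid s D c p = (s * p.1, D p.1 + c * p.1 + s * p.2) := rfl

/-- the operators -/
def op (s : Λ) (D : Derivation K Λ Λ) (c : Λ) (φ : (Λ × Λ) →ₗ[K] K) (q : Λ × Λ) (z : K) :
    Module.End K (K × (Λ × Λ) × K) where
  toFun v := (φ v.2.1 + z * v.2.2, mid s D c v.2.1 + v.2.2 • q, 0)
  map_add' v w := by
    refine Prod.ext ?_ (Prod.ext ?_ ?_)
    · simp only [Prod.fst_add, Prod.snd_add, map_add]; ring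
    · simp only [Prod.fst_add, Prod.snd_add, map_add, add_smul]; abel
    · simp
  map_smul' k v := by
    refine Prod.ext ?_ (Prod.ext ?_ ?_)
    · simp only [Prod.smul_fst, Prod.smul_snd, map_smul, smul_eq_mul, RingHom.id_apply]; ring
    · simp only [Prod.smul_fst, Prod.smul_snd, map_smul, RingHom.id_apply, smul_add, smul_eq_mul,
        mul_smul]
    · simp

theorem op_apply (s : Λ) (D : Derivation K Λ Λ) (c : Λ) (φ : (Λ × Λ) →ₗ[K] K) (q : Λ × Λ) (z : K)
    (v : K × (Λ × Λ) × K) :
    op s D c φ q z v = (φ v.2.1 + z * v.2.2, mid s D c v.2.1 + v.2.2 • q, 0) := rfl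

theorem mid_mul (s s' : Λ) (D D' : Derivation K Λ Λ) (c c' : Λ) :
    mid s D c ∘ₗ mid s' D' c' = mid (s * s') (s • D' + s' • D) (s * c' + s' * c + D s') := by
  apply LinearMap.ext
  intro p
  simp only [LinearMap.comp_apply, mid_apply]
  ext
  · simp only; ring
  · simp only [Derivation.leibniz, smul_eq_mul, Derivation.add_apply, Derivation.smul_apply]
    ring

theorem op_mul (s s' : Λ) (D D' : Derivation K Λ Λ) (c c' : Λ) (φ φ' : (Λ × Λ) →ₗ[K] K)
    (q q' : Λ × Λ) (z z' : K) :
    op s D c φ q z * op s' D' c' φ' q' z' =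
      op (s * s') (s • D' + s' • D) (s * c' + s' * c + D s') (φ ∘ₗ mid s' D' c')
        (mid s D c q') (φ q') := by
  apply LinearMap.ext
  intro v
  rw [Module.End.mul_apply]
  simp only [op_apply, ← mid_mul, LinearMap.comp_apply]
  refine Prod.ext ?_ (Prod.ext ?_ ?_)
  · simp only [map_add, map_smul, smul_eq_mul]; ring
  · simp only [map_add, map_smul, zero_smul, add_zero]
  · simp

theorem op_add (s s' : Λ) (D D' : Derivation K Λ Λ) (c c' : Λ) (φ φ' : (Λ × Λ) →ₗ[K] K)
    (q q' : Λ × Λ) (z z' : K) :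
    op s D c φ q z + op s' D' c' φ' q' z' =
      op (s + s') (D + D') (c + c') (φ + φ') (q + q') (z + z') := by
  apply LinearMap.ext
  intro v
  simp only [op_apply, mid_apply, LinearMap.add_apply]
  refine Prod.ext ?_ (Prod.ext ?_ ?_)
  · simp only [Prod.fst_add]; ring
  · simp only [Prod.snd_add, Prod.fst_add, Derivation.add_apply, Prod.mk_add_mk, smul_add]
    ext
    · simp only [Prod.fst_add]; ring
    · simp only [Prod.snd_add]; ring
  · simp

theorem op_smul (k : K) (s : Λ) (D : Derivation K Λ Λ) (c : Λ) (φ : (Λ × Λ) →ₗ[K] K)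
    (q : Λ × Λ) (z : K) :
    k • op s D c φ q z = op (k • s) (k • D) (k • c) (k • φ) (k • q) (k * z) := by
  apply LinearMap.ext
  intro v
  simp only [op_apply, mid_apply, LinearMap.smul_apply]
  refine Prod.ext ?_ (Prod.ext ?_ ?_)
  · simp only [Prod.smul_fst, smul_eq_mul]; ring
  · ext
    · simp only [Prod.smul_snd, Prod.smul_fst, Prod.fst_add, smul_add, smul_mul_assoc]
      rw [smul_comm]
    · simp only [Prod.smul_snd, Prod.smul_fst, Prod.snd_add, smul_add, smul_mul_assoc,
        Derivation.smul_apply]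
      rw [smul_comm k v.2.2]
  · simp

theorem op_zero : op (0 : Λ) (0 : Derivation K Λ Λ) 0 0 0 0 = 0 := by
  apply LinearMap.ext
  intro v
  simp only [op_apply, mid_apply]
  refine Prod.ext ?_ (Prod.ext ?_ ?_)
  · simp
  · ext
    · simp
    · simp
  · simp

variable (K Λ) in
/-- the nonunital algebra of all these operators -/
def opAlg : NonUnitalSubalgebra K (Module.End K (K × (Λ × Λ) × K)) where
  carrier := {g | ∃ s D c φ q z, g = op s D c φ q z}
  add_mem' := by
    rintro _ _ ⟨s, D, c, φ, q, z, rfl⟩ ⟨s', D', c', φ', q', z', rfl⟩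
    exact ⟨_, _, _, _, _, _, op_add ..⟩
  zero_mem' := ⟨0, 0, 0, 0, 0, 0, op_zero.symm⟩
  mul_mem' := by
    rintro _ _ ⟨s, D, c, φ, q, z, rfl⟩ ⟨s', D', c', φ', q', z', rfl⟩
    exact ⟨_, _, _, _, _, _, op_mul ..⟩
  smul_mem' := by
    rintro k _ ⟨s, D, c, φ, q, z, rfl⟩
    exact ⟨_, _, _, _, _, _, op_smul ..⟩

theorem op_mem (s : Λ) (D : Derivation K Λ Λ) (c : Λ) (φ : (Λ × Λ) →ₗ[K] K) (q : Λ × Λ) (z : K) :
    op s D c φ q z ∈ opAlg K Λ := ⟨_, _, _, _, _, _, rfl⟩

theorem mem_last {g : Module.End K (K × (Λ × Λ) × K)} (h : g ∈ opAlg K Λ)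
    (v : K × (Λ × Λ) × K) : (g v).2.2 = 0 := by
  obtain ⟨s, D, c, φ, q, z, rfl⟩ := h
  rfl

theorem mem_first {g : Module.End K (K × (Λ × Λ) × K)} (h : g ∈ opAlg K Λ)
    (v : K × (Λ × Λ) × K) (h1 : v.2 = 0) : g v = 0 := by
  obtain ⟨s, D, c, φ, q, z, rfl⟩ := h
  rw [op_apply, h1]
  simp

theorem mem_comm {g g' : Module.End K (K × (Λ × Λ) × K)} (h : g ∈ opAlg K Λ)
    (h' : g' ∈ opAlg K Λ) : ∃ d : Λ, ∀ v : K × (Λ × Λ) × K, v.2.2 = 0 →
      ((g * g' - g' * g) v).2 = ((0, d * v.2.1.1), 0) := by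
  obtain ⟨s, D, c, φ, q, z, rfl⟩ := h
  obtain ⟨s', D', c', φ', q', z', rfl⟩ := h'
  refine ⟨D s' - D' s, fun v hv => ?_⟩
  rw [LinearMap.sub_apply, op_mul, op_mul]
  simp only [op_apply, mid_apply, hv, Prod.snd_sub, zero_smul, add_zero, Prod.mk_sub_mk, sub_self]
  refine Prod.ext (Prod.ext ?_ ?_) ?_
  · simp only; ring
  · simp only [Derivation.add_apply, Derivation.smul_apply, smul_eq_mul]; ring
  · rfl

theorem opAlg_inW : InW (opAlg K Λ) := by
  constructor
  · rintro ⟨x, hx⟩ ⟨y, hy⟩ ⟨z, hz⟩ ⟨t, ht⟩ ⟨u, hu⟩ ⟨v, hv⟩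
    apply Subtype.ext
    show x * (y * z - z * y) * (t * u - u * t) * v = 0
    obtain ⟨d, hd⟩ := mem_comm hy hz
    obtain ⟨d', hd'⟩ := mem_comm ht hu
    apply LinearMap.ext
    intro w
    simp only [Module.End.mul_apply]
    apply mem_first hx
    have h1 := hd' (v w) (mem_last hv w)
    rw [hd _ (by rw [h1]), h1]
    simp
  · rintro ⟨x, hx⟩ ⟨y, hy⟩ ⟨z, hz⟩ ⟨t, ht⟩ ⟨u, hu⟩
    apply Subtype.ext
    show x * ((y * z - z * y) * t - t * (y * z - z * y)) * u = 0
    obtain ⟨d, hd⟩ := mem_comm hy hz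
    apply LinearMap.ext
    intro w
    simp only [Module.End.mul_apply]
    apply mem_first hx
    have hw := mem_last hu w
    have h1 := hd (u w) hw
    rw [LinearMap.sub_apply, Prod.snd_sub, Module.End.mul_apply, Module.End.mul_apply,
      hd _ (mem_last ht _)]
    obtain ⟨s, D, c, φ, q, z', rfl⟩ := ht
    simp only [op_apply, mid_apply, h1, hw, zero_smul, add_zero, map_zero, mul_zero, zero_add]
    refine Prod.ext (Prod.ext ?_ ?_) ?_
    · simp
    · simp only [Prod.mk_sub_mk, Prod.snd_zero, Prod.fst_zero]; ring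
    · simp

end basic

/-! ### The concrete model -/

section concrete

variable {S : ℕ → Prop} (P : Pen S) (n : ℕ) (hn : ¬ S n) (K : Type) [Field K] [CharZero K]

/-- the index set of the polynomial ring -/
abbrev Vr (P : Pen S) : Type := P.γ ⊕ Option P.J

open Classical in
/-- the values `x_j(ν)` -/
noncomputable def xv (o : Option P.J) (ν : P.γ → ℕ) : K :=
  if h : ν P.i₀ = n then o.elim 1 (fun j => ((P.dual ν (by rw [h]; exact hn)).choose j : K)) else 0

open Classical in
theorem xv_eq (ν : P.γ → ℕ) (α : P.A) :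
    (∑ j, ∑ k, (P.c α k j : K) * (ex ν k : K) * xv P n hn K (some j) ν) +
      (if α = P.root then xv P n hn K none ν else 0) = 0 := by
  by_cases h : ν P.i₀ = n
  · have h1 := (P.dual ν (by rw [h]; exact hn)).choose_spec α
    have h2 := congrArg (fun q : ℚ => (q : K)) h1
    simp only [xv, dif_pos h, Option.elim_some, Option.elim_none]
    push_cast at h2
    refine Eq.trans ?_ h2
    congr 1
    split_ifs <;> simp
  · simp [xv, dif_neg h]

open Classical in
/-- weights of monomials -/
noncomputable def wt (d : Vr P →₀ ℕ) : K :=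
  ∑ o : Option P.J, if (fun j => d (Sum.inr j)) = Pi.single o 1
    then xv P n hn K o (fun k => d (Sum.inl k)) else 0

/-- the functional -/
noncomputable def ell : MvPolynomial (Vr P) K →ₗ[K] K :=
  (basisMonomials (Vr P) K).constr K (wt P n hn K)

theorem ell_monomial (d : Vr P →₀ ℕ) : ell P n hn K (monomial d 1) = wt P n hn K d := by
  have := (basisMonomials (Vr P) K).constr_basis K (wt P n hn K) d
  rwa [coe_basisMonomials] at this

open Classical in
theorem ell_X (o : Option P.J) (d : Vr P →₀ ℕ) :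
    ell P n hn K (X (Sum.inr o) * monomial d 1) =
      if (∀ j, d (Sum.inr j) = 0) then xv P n hn K o (fun k => d (Sum.inl k)) else 0 := by
  have h1 : (X (Sum.inr o) * monomial d 1 : MvPolynomial (Vr P) K) =
      monomial (Finsupp.single (Sum.inr o) 1 + d) 1 := by
    rw [X, monomial_mul, one_mul]
  rw [h1, ell_monomial, wt]
  have h3 : (fun k => (Finsupp.single (Sum.inr o : Vr P) (1 : ℕ) + d : Vr P →₀ ℕ) (Sum.inl k)) =
      fun k => d (Sum.inl k) := by
    funext k
    simp
  rw [h3]
  split_ifs with h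
  · have h2 : (fun j => (Finsupp.single (Sum.inr o : Vr P) (1 : ℕ) + d : Vr P →₀ ℕ) (Sum.inr j)) =
        Pi.single o 1 := by
      funext j
      by_cases hj : j = o
      · subst hj; simp [h]
      · simp [h, hj, Finsupp.single_apply, Ne.symm hj]
    rw [h2, Finset.sum_eq_single o]
    · simp
    · intro o' _ ho
      rw [if_neg]
      intro h4
      have := congrFun h4 o'
      rw [Pi.single_eq_same, Pi.single_eq_of_ne ho] at this
      exact zero_ne_one this
    · simp
  · apply Finset.sum_eq_zero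
    intro o' _
    rw [if_neg]
    intro h4
    push Not at h
    obtain ⟨j, hj⟩ := h
    have h5 : ∑ i, (Finsupp.single (Sum.inr o : Vr P) (1 : ℕ) + d : Vr P →₀ ℕ) (Sum.inr i) = 1 := by
      have := congrArg (fun f : Option P.J → ℕ => ∑ i, f i) h4
      simpa using this
    simp only [Finsupp.add_apply, Finset.sum_add_distrib] at h5
    have h6 : ∑ i, (Finsupp.single (Sum.inr o : Vr P) (1 : ℕ) : Vr P →₀ ℕ) (Sum.inr i) = 1 := by
      rw [Finset.sum_eq_single o]
      · simp
      · intro i _ hi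
        simp [Finsupp.single_apply, Ne.symm hi]
      · simp
    have h7 : d (Sum.inr j) ≤ ∑ i, d (Sum.inr i) :=
      Finset.single_le_sum (f := fun i => d (Sum.inr i)) (fun _ _ => Nat.zero_le _) (mem_univ j)
    omega

/-- Euler operators -/
noncomputable def eul (k : P.γ) : Derivation K (MvPolynomial (Vr P) K) (MvPolynomial (Vr P) K) :=
  (X (Sum.inl k) : MvPolynomial (Vr P) K) • pderiv (Sum.inl k)

open Classical in
theorem eul_X (k i : P.γ) : eul P K k (X (Sum.inl i)) = if i = k then X (Sum.inl i) else 0 := by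
  rw [eul, Derivation.smul_apply, pderiv_X]
  by_cases h : i = k
  · subst h; simp
  · rw [if_neg h, Pi.single_eq_of_ne (by simpa using h), smul_zero]

theorem eul_monomial (k : P.γ) (d : Vr P →₀ ℕ) :
    eul P K k (monomial d 1) = (d (Sum.inl k) : K) • monomial d 1 := by
  rw [eul, Derivation.smul_apply, smul_eq_mul, X_mul_pderiv_monomial, Nat.cast_smul_eq_nsmul]

theorem lin_zero {F : MvPolynomial (Vr P) K →ₗ[K] K} (h : ∀ d, F (monomial d 1) = 0)
    (p : MvPolynomial (Vr P) K) : F p = 0 := by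
  have : F = 0 := by
    apply (basisMonomials (Vr P) K).ext
    intro d
    rw [coe_basisMonomials, h d, LinearMap.zero_apply]
  rw [this, LinearMap.zero_apply]

/-- the functional `p ↦ ℓ(X_o p)` -/
noncomputable def fn (o : Option P.J) : MvPolynomial (Vr P) K →ₗ[K] K :=
  ell P n hn K ∘ₗ LinearMap.mulLeft K (X (Sum.inr o))

theorem fn_apply (o : Option P.J) (p : MvPolynomial (Vr P) K) :
    fn P n hn K o p = ell P n hn K (X (Sum.inr o) * p) := rfl

open Classical in
theorem fn_rel (α : P.A) (p : MvPolynomial (Vr P) K) :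
    (∑ j, P.c α none j • fn P n hn K (some j) p) +
      (∑ j, ∑ k, P.c α (some k) j • fn P n hn K (some j) (eul P K k p)) +
      (if α = P.root then fn P n hn K none p else 0) = 0 := by
  let F : MvPolynomial (Vr P) K →ₗ[K] K :=
    (∑ j, P.c α none j • fn P n hn K (some j)) +
      (∑ j, ∑ k, P.c α (some k) j • (fn P n hn K (some j) ∘ₗ (eul P K k : _ →ₗ[K] _))) +
      (if α = P.root then fn P n hn K none else 0)
  have hF : ∀ p, F p = (∑ j, P.c α none j • fn P n hn K (some j) p) +
      (∑ j, ∑ k, P.c α (some k) j • fn P n hn K (some j) (eul P K k p)) +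
      (if α = P.root then fn P n hn K none p else 0) := by
    intro p
    simp only [F, LinearMap.add_apply, LinearMap.sum_apply, LinearMap.smul_apply,
      LinearMap.comp_apply, Derivation.coeFn_coe]
    congr 1
    split_ifs <;> rfl
  rw [← hF]
  refine lin_zero P K (fun d => ?_) p
  rw [hF]
  simp only [eul_monomial, map_smul, fn_apply, ell_X]
  by_cases hd : ∀ j, d (Sum.inr j) = 0
  · simp only [if_pos hd]
    refine Eq.trans ?_ (xv_eq P n hn K (fun k => d (Sum.inl k)) α)
    congr 1
    rw [← Finset.sum_add_distrib]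
    apply Finset.sum_congr rfl
    intro j _
    rw [Fintype.sum_option]
    congr 1
    · simp [ex]
    · apply Finset.sum_congr rfl
      intro k _
      simp [ex, mul_assoc]
  · simp [if_neg hd]

open Classical in
theorem fn_shift (k : P.γ) (hk : k ≠ P.i₀) (p : MvPolynomial (Vr P) K) :
    fn P n hn K none (X (Sum.inl k) * p) = fn P n hn K none p := by
  let F : MvPolynomial (Vr P) K →ₗ[K] K :=
    fn P n hn K none ∘ₗ LinearMap.mulLeft K (X (Sum.inl k)) - fn P n hn K none
  have hF : ∀ p, F p = fn P n hn K none (X (Sum.inl k) * p) - fn P n hn K none p := fun p => rfl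
  rw [← sub_eq_zero, ← hF]
  refine lin_zero P K (fun d => ?_) p
  rw [hF, sub_eq_zero]
  have h1 : (X (Sum.inl k) * monomial d 1 : MvPolynomial (Vr P) K) =
      monomial (Finsupp.single (Sum.inl k) 1 + d) 1 := by
    rw [X, monomial_mul, one_mul]
  rw [h1, fn_apply, fn_apply, ell_X, ell_X]
  have h2 : (∀ j, (Finsupp.single (Sum.inl k : Vr P) (1 : ℕ) + d : Vr P →₀ ℕ) (Sum.inr j) = 0) ↔
      ∀ j, d (Sum.inr j) = 0 := by
    simp
  have h3 : (Finsupp.single (Sum.inl k : Vr P) (1 : ℕ) + d : Vr P →₀ ℕ) (Sum.inl P.i₀) =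
      d (Sum.inl P.i₀) := by
    simp [Finsupp.single_apply, hk]
  simp only [h2]
  congr 1
  simp only [xv, h3, Option.elim_none]

theorem fn_pow : fn P n hn K none (X (Sum.inl P.i₀) ^ n) = 1 := by
  classical
  rw [fn_apply, X_pow_eq_monomial, ell_X, if_pos (by simp)]
  simp [xv]

/-- the generators of the model -/
noncomputable def gen : Gen P.γ P.J →
    Module.End K (K × (MvPolynomial (Vr P) K × MvPolynomial (Vr P) K) × K)
  | l j => op 0 0 0 (fn P n hn K (some j) ∘ₗ LinearMap.snd K _ _) 0 0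
  | l' => op 0 0 0 (fn P n hn K none ∘ₗ LinearMap.snd K _ _) 0 0
  | r => op 0 0 0 0 (1, 0) 0
  | a k => op (X (Sum.inl k)) 0 0 0 0 0
  | t k => op 0 (- eul P K k) 0 0 0 0
  | e => op 0 0 1 0 0 0

theorem gen_rels : Rels P (gen P n hn K) := by
  classical
  constructor
  · intro i k
    apply LinearMap.ext
    rintro ⟨a, ⟨p, q⟩, b⟩
    by_cases h : i = k
    · subst h
      simp only [if_true, gen, LinearMap.sub_apply, Module.End.mul_apply, op_apply, mid_apply]
      refine Prod.ext ?_ (Prod.ext (Prod.ext ?_ ?_) ?_)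
      · simp
      · simp
      · simp [eul_X]
        ring
      · simp
    · simp only [if_neg h, sub_zero, gen, LinearMap.sub_apply, Module.End.mul_apply, op_apply,
        mid_apply]
      refine Prod.ext ?_ (Prod.ext (Prod.ext ?_ ?_) ?_)
      · simp
      · simp
      · simp [eul_X, h]
      · simp
  · intro k
    apply LinearMap.ext
    rintro ⟨a, ⟨p, q⟩, b⟩
    simp only [gen, LinearMap.sub_apply, Module.End.mul_apply, op_apply, mid_apply]
    refine Prod.ext ?_ (Prod.ext (Prod.ext ?_ ?_) ?_) <;> simp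
  · intro k
    apply LinearMap.ext
    rintro ⟨a, ⟨p, q⟩, b⟩
    simp only [gen, Module.End.mul_apply, op_apply, mid_apply]
    refine Prod.ext ?_ (Prod.ext (Prod.ext ?_ ?_) ?_) <;> simp
  · intro α
    apply LinearMap.ext
    rintro ⟨a, ⟨p, q⟩, b⟩
    have h1 : ∀ j, (gen P n hn K (l j) * gen P n hn K e) (a, (p, q), b) =
        (fn P n hn K (some j) p, 0, 0) := by
      intro j
      simp only [gen, Module.End.mul_apply, op_apply, mid_apply]
      refine Prod.ext ?_ (Prod.ext (Prod.ext ?_ ?_) ?_) <;> simp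
    have h2 : ∀ j k, (gen P n hn K (l j) * gen P n hn K (t k)) (a, (p, q), b) =
        (- fn P n hn K (some j) (eul P K k p), 0, 0) := by
      intro j k
      simp only [gen, Module.End.mul_apply, op_apply, mid_apply]
      refine Prod.ext ?_ (Prod.ext (Prod.ext ?_ ?_) ?_) <;> simp
    have h3 : (gen P n hn K l' * gen P n hn K e) (a, (p, q), b) =
        (fn P n hn K none p, 0, 0) := by
      simp only [gen, Module.End.mul_apply, op_apply, mid_apply]
      refine Prod.ext ?_ (Prod.ext (Prod.ext ?_ ?_) ?_) <;> simp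
    have h4 := fn_rel P n hn K α p
    simp only [LinearMap.add_apply, LinearMap.sub_apply, LinearMap.sum_apply,
      LinearMap.smul_apply, h1, h2]
    have h5 : (if α = P.root then gen P n hn K l' * gen P n hn K e else 0) (a, (p, q), b) =
        (if α = P.root then fn P n hn K none p else 0, 0, 0) := by
      split_ifs
      · exact h3
      · rfl
    rw [h5]
    refine Prod.ext ?_ (Prod.ext ?_ ?_)
    · simp only [Prod.fst_add, Prod.fst_sub, Prod.fst_sum, Prod.smul_fst, smul_neg,
        Finset.sum_neg_distrib, sub_neg_eq_add, LinearMap.zero_apply, Prod.fst_zero]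
      exact h4
    · simp [Prod.snd_sum, Prod.fst_sum]
    · simp [Prod.snd_sum]
  · intro k hk
    apply LinearMap.ext
    rintro ⟨a, ⟨p, q⟩, b⟩
    simp only [gen, LinearMap.sub_apply, Module.End.mul_apply, op_apply, mid_apply]
    refine Prod.ext ?_ (Prod.ext (Prod.ext ?_ ?_) ?_)
    · simp [fn_shift P n hn K k hk]
    · simp
    · simp
    · simp

theorem gen_mr (m : ℕ) : mr (gen P n hn K) (List.replicate m P.i₀) (0, 0, 1) =
    (0, (X (Sum.inl P.i₀) ^ m, 0), 0) := by
  induction m with
  | zero =>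
    simp only [mr, List.replicate_zero, List.foldr_nil, gen, op_apply, mid_apply]
    refine Prod.ext ?_ (Prod.ext (Prod.ext ?_ ?_) ?_) <;> simp
  | succ m ih =>
    have : mr (gen P n hn K) (List.replicate (m + 1) P.i₀) =
        gen P n hn K (a P.i₀) * mr (gen P n hn K) (List.replicate m P.i₀) := rfl
    rw [this, Module.End.mul_apply, ih]
    simp only [gen, op_apply, mid_apply]
    refine Prod.ext ?_ (Prod.ext (Prod.ext ?_ ?_) ?_) <;> simp [pow_succ']

theorem gen_ne : wv (gen P n hn K) (uw P n) ≠ 0 := by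
  rw [wv_uw]
  intro h
  have h1 := congrArg (fun g : Module.End K (K × (MvPolynomial (Vr P) K ×
    MvPolynomial (Vr P) K) × K) => (g (0, 0, 1)).1) h
  simp only [Module.End.mul_apply, gen_mr] at h1
  simp only [gen, op_apply, mid_apply] at h1
  simp [fn_pow] at h1

theorem gen_mem (g : Gen P.γ P.J) : gen P n hn K g ∈ opAlg K (MvPolynomial (Vr P) K) := by
  cases g <;> exact op_mem _ _ _ _ _ _

end concrete

end Pool.Agent.H533W
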