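import Mathlib
import Pool.Agent.H533W.Model

/-! The finitely presented algebras. -/

set_option autoImplicit false

namespace Pool.Agent.H533W

open Finset Gen

/-! ### Evaluation -/

section evaluation

variable {K X : Type} [Field K]

theorem wv_rel {A B Y : Type} [Mul A] [Mul B] (R : A → B → Prop)
    (hm : ∀ a b a' b', R a b → R a' b' → R (a * a') (b * b')) (x : Y → A) (y : Y → B)
    (h : ∀ i, R (x i) (y i)) (w : Wd Y) : R (wv x w) (wv y w) := by
  obtain ⟨i, L⟩ := w
  unfold wv
  simp only
  have : ∀ (L : List Y) (a : A) (b : B), R a b →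
      R (L.foldl (fun s i => s * x i) a) (L.foldl (fun s i => s * y i) b) := by
    intro L
    induction L with
    | nil => intro a b h; exact h
    | cons j L ih => intro a b hab; exact ih _ _ (hm _ _ _ _ hab (h j))
  exact this L _ _ (h i)

/-- the generators of the free algebra -/
noncomputable def fg (K : Type) [Field K] {X : Type} (i : X) : Fr K X :=
  MonoidAlgebra.single (FreeSemigroup.of i) 1

theorem wv_fg (w : Wd X) : wv (fg K) w = mon K w := by
  obtain ⟨i, L⟩ := w
  unfold wv mon fg
  simp only
  have : ∀ (L M : List X), L.foldl (fun s i => s * MonoidAlgebra.single (FreeSemigroup.of i) (1 : K))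
      (MonoidAlgebra.single ⟨i, M⟩ 1) = MonoidAlgebra.single ⟨i, M ++ L⟩ 1 := by
    intro L
    induction L with
    | nil => intro M; simp
    | cons j L ih =>
      intro M
      rw [List.foldl_cons, MonoidAlgebra.single_mul_single, one_mul]
      have : (⟨i, M⟩ : FreeSemigroup X) * FreeSemigroup.of j = ⟨i, M ++ [j]⟩ := rfl
      rw [this, ih]
      simp
  exact this L []

theorem toFr_eq {R : Type} (κ : R → K) (c : NC R X) :
    toFr κ c = (c.map fun t => κ t.1 • mon K t.2).sum := by
  unfold toFr mon
  congr 1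
  apply List.map_congr_left
  intro t _
  simp

variable {A : Type} [NonUnitalRing A] [Module K A] [IsScalarTower K A A] [SMulCommClass K A A]

theorem evalAt_mon (x : X → A) (w : Wd X) : evalAt x (mon K w) = wv x w := by
  unfold evalAt mon
  simp
  rfl

theorem evalAt_comp (x : X → A) {Y : Type} (g : Y → Fr K X) (f : Fr K Y) :
    evalAt x (evalAt g f) = evalAt (fun i => evalAt x (g i)) f := by
  have : (evalAt x).comp (evalAt g) = evalAt (K := K) (fun i => evalAt x (g i)) := by
    apply MonoidAlgebra.nonUnitalAlgHom_ext'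
    apply FreeSemigroup.hom_ext
    funext i
    simp [evalAt, MonoidAlgebra.ofMagma]
  rw [← this]
  rfl

end evaluation

/-! ### The relators -/

section relators

variable {S : ℕ → Prop} (P : Pen S)

open Classical in
/-- the list of relators -/
noncomputable def rl : List (NC ℤ (Gen P.γ P.J)) :=
  ((univ : Finset (P.γ × P.γ)).toList.map fun p =>
    [(1, (a p.1, [t p.2])), (-1, (t p.2, [a p.1]))] ++
      if p.1 = p.2 then [(-1, (e, [a p.1]))] else []) ++
  ((univ : Finset P.γ).toList.map fun k => [(1, (a k, [e])), (-1, (e, [a k]))]) ++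
  ((univ : Finset P.γ).toList.map fun k => [(1, (t k, [r]))]) ++
  ((univ : Finset P.A).toList.map fun α =>
    ((univ : Finset P.J).toList.map fun j => (P.c α none j, (l j, [e]))) ++
    ((univ : Finset (P.J × P.γ)).toList.map fun q => (-P.c α (some q.2) q.1, (l q.1, [t q.2]))) ++
      if α = P.root then [(1, (l', [e]))] else []) ++
  (((univ : Finset P.γ).erase P.i₀).toList.map fun k => [(1, (l', [a k])), (-1, (l', []))])

/-- value of an integral formal sum -/
def zev {A X : Type} [NonUnitalRing A] (x : X → A) (c : NC ℤ X) : A :=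
  (c.map fun q => q.1 • wv x q.2).sum

theorem rl_iff {A : Type} [NonUnitalRing A] (x : Gen P.γ P.J → A) :
    (∀ c ∈ rl P, zev x c = 0) ↔ Rels P x := by
  classical
  have hsum : ∀ {Y : Type} (s : Finset Y) (f : Y → A), (s.toList.map f).sum = ∑ y ∈ s, f y :=
    fun s f => Finset.sum_map_toList s f
  constructor
  · intro h
    constructor
    · intro i k
      have := h ([(1, (a i, [t k])), (-1, (t k, [a i]))] ++
        if i = k then [(-1, (e, [a i]))] else []) (by
          simp only [rl, List.mem_append, List.mem_map]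
          exact Or.inl (Or.inl (Or.inl (Or.inl ⟨(i, k), by simp, rfl⟩))))
      refine Eq.trans ?_ this
      split_ifs <;> simp [zev, wv] <;> abel
    · intro k
      have := h [(1, (a k, [e])), (-1, (e, [a k]))] (by
          simp only [rl, List.mem_append, List.mem_map]
          exact Or.inl (Or.inl (Or.inl (Or.inr ⟨k, by simp, rfl⟩))))
      rw [← this]
      simp [zev, wv]
      abel
    · intro k
      have := h [(1, (t k, [r]))] (by
          simp only [rl, List.mem_append, List.mem_map]
          exact Or.inl (Or.inl (Or.inr ⟨k, by simp, rfl⟩)))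
      rw [← this]
      simp [zev, wv]
    · intro α
      have := h (((univ : Finset P.J).toList.map fun j => (P.c α none j, (l j, [e]))) ++
        ((univ : Finset (P.J × P.γ)).toList.map fun q =>
          (-P.c α (some q.2) q.1, (l q.1, [t q.2]))) ++
        if α = P.root then [(1, (l', [e]))] else []) (by
          simp only [rl, List.mem_append, List.mem_map]
          exact Or.inl (Or.inr ⟨α, by simp, rfl⟩))
      refine Eq.trans ?_ this
      rw [zev, List.map_append, List.map_append, List.sum_append, List.sum_append, List.map_map,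
        List.map_map, hsum, hsum, Fintype.sum_prod_type]
      rw [sub_eq_add_neg, ← Finset.sum_neg_distrib]
      congr 1
      · congr 1
        apply Finset.sum_congr rfl
        intro j _
        rw [← Finset.sum_neg_distrib]
        apply Finset.sum_congr rfl
        intro k _
        simp [wv]
      · split_ifs <;> simp [wv]
    · intro k hk
      have := h [(1, (l', [a k])), (-1, (l', []))] (by
          simp only [rl, List.mem_append, List.mem_map]
          exact Or.inr ⟨k, by simp [hk], rfl⟩)
      rw [← this]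
      simp [zev, wv]
      abel
  · intro h c hc
    simp only [rl, List.mem_append, List.mem_map] at hc
    rcases hc with (((⟨p, -, rfl⟩ | ⟨k, -, rfl⟩) | ⟨k, -, rfl⟩) | ⟨α, -, rfl⟩) | ⟨k, hk, rfl⟩
    · refine Eq.trans ?_ (h.ra p.1 p.2)
      split_ifs <;> simp [zev, wv] <;> abel
    · rw [← h.rb k]
      simp [zev, wv]
      abel
    · rw [← h.rc k]
      simp [zev, wv]
    · refine Eq.trans ?_ (h.rd α)
      rw [zev, List.map_append, List.map_append, List.sum_append, List.sum_append, List.map_map,
        List.map_map, hsum, hsum, Fintype.sum_prod_type]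
      rw [sub_eq_add_neg, ← Finset.sum_neg_distrib]
      congr 1
      · congr 1
        apply Finset.sum_congr rfl
        intro j _
        rw [← Finset.sum_neg_distrib]
        apply Finset.sum_congr rfl
        intro k _
        simp [wv]
      · split_ifs <;> simp [wv]
    · rw [← h.re k (by simpa using hk)]
      simp [zev, wv]
      abel

instance : Finite (Gen P.γ P.J) := by
  let f : (P.J ⊕ P.γ ⊕ P.γ ⊕ Fin 3) → Gen P.γ P.J :=
    Sum.elim l (Sum.elim a (Sum.elim t ![l', r, e]))
  apply Finite.of_surjective f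
  rintro (j | _ | _ | k | k | _)
  · exact ⟨Sum.inl j, rfl⟩
  · exact ⟨Sum.inr (Sum.inr (Sum.inr 0)), rfl⟩
  · exact ⟨Sum.inr (Sum.inr (Sum.inr 1)), rfl⟩
  · exact ⟨Sum.inr (Sum.inl k), rfl⟩
  · exact ⟨Sum.inr (Sum.inr (Sum.inl k)), rfl⟩
  · exact ⟨Sum.inr (Sum.inr (Sum.inr 2)), rfl⟩

end relators

/-! ### Relabelling of letters -/

/-- relabelling of a word -/
def Wd.map {X Y : Type} (f : X → Y) (w : Wd X) : Wd Y := (f w.1, w.2.map f)

theorem wv_map {A X Y : Type} [Mul A] (f : X → Y) (x : Y → A) (w : Wd X) :
    wv x (Wd.map f w) = wv (x ∘ f) w := by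
  simp [wv, Wd.map, List.foldl_map]

theorem zev_map {A X Y : Type} [NonUnitalRing A] (f : X → Y) (x : Y → A) (c : NC ℤ X) :
    zev x (c.map fun q => (q.1, Wd.map f q.2)) = zev (x ∘ f) c := by
  simp [zev, List.map_map, Function.comp_def, wv_map]

theorem evalAt_toFr {K X : Type} [Field K] {A : Type} [NonUnitalRing A] [Module K A]
    [IsScalarTower K A A] [SMulCommClass K A A] (x : X → A) (c : NC ℤ X) :
    evalAt x (toFr (fun z : ℤ => (z : K)) c) = zev x c := by
  rw [toFr_eq, map_list_sum, List.map_map, zev]
  congr 1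
  apply List.map_congr_left
  intro q _
  simp only [Function.comp_apply, map_smul, evalAt_mon]
  exact Int.cast_smul_eq_zsmul K q.1 _

/-! ### The quotient by the ideal -/

section quotient

variable {K X : Type} [Field K] (E : Set (Fr K ℕ)) (R : Set (Fr K X))

theorem InIdeal.neg' {f : Fr K X} (h : InIdeal E R f) : InIdeal E R (-f) := by
  have := InIdeal.smul (-1 : K) h
  rwa [neg_one_smul] at this

/-- the ideal, as a two-sided ideal -/
noncomputable def theIdeal : TwoSidedIdeal (Fr K X) :=
  TwoSidedIdeal.mk' {f | InIdeal E R f} InIdeal.zero InIdeal.add (InIdeal.neg' E R)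
    (fun {x _} h => InIdeal.mul_left x h) (fun {_ y} h => InIdeal.mul_right y h)

theorem mem_theIdeal (f : Fr K X) : f ∈ theIdeal E R ↔ InIdeal E R f :=
  TwoSidedIdeal.mem_mk' ..

theorem coe_zero_iff (f : Fr K X) :
    ((f : (theIdeal E R).ringCon.Quotient) = 0) ↔ InIdeal E R f := by
  rw [← mem_theIdeal, TwoSidedIdeal.mem_iff]
  exact RingCon.eq _

theorem coe_wv (w : Wd X) : (wv (fun i => (fg K i : (theIdeal E R).ringCon.Quotient)) w) =
    ((mon K w : Fr K X) : (theIdeal E R).ringCon.Quotient) := by
  rw [← wv_fg]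
  exact (wv_rel (fun (f : Fr K X) (g : (theIdeal E R).ringCon.Quotient) => g = f)
    (fun f g f' g' h h' => by rw [h, h']; rfl) (fg K) _ (fun i => rfl) w)

theorem coe_zev (c : NC ℤ X) : (zev (fun i => (fg K i : (theIdeal E R).ringCon.Quotient)) c) =
    ((toFr (fun z : ℤ => (z : K)) c : Fr K X) : (theIdeal E R).ringCon.Quotient) := by
  rw [toFr_eq]
  unfold zev
  induction c with
  | nil => rfl
  | cons q c ih =>
    rw [List.map_cons, List.sum_cons, List.map_cons, List.sum_cons, RingCon.coe_add, ← ih, coe_wv,
      Int.cast_smul_eq_zsmul, RingCon.coe_zsmul]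

theorem ideal_le {A : Type} [NonUnitalRing A] [Module K A] [IsScalarTower K A A]
    [SMulCommClass K A A] (hA : Sat E A) (x : X → A) (hx : ∀ f ∈ R, evalAt x f = 0) {f : Fr K X}
    (h : InIdeal E R f) : evalAt x f = 0 := by
  induction h with
  | rel h => exact hx _ h
  | ident h g => rw [evalAt_comp]; exact hA _ h _
  | zero => exact map_zero _
  | add _ _ h1 h2 => rw [map_add, h1, h2, add_zero]
  | smul c _ h => rw [map_smul, h, smul_zero]
  | mul_left g _ h => rw [map_mul, h, mul_zero]
  | mul_right g _ h => rw [map_mul, h, zero_mul]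

end quotient

/-! ### The main statement -/

theorem list_rep (X : Type) [Primcodable X] (x : X) : Primrec fun n : ℕ => List.replicate n x := by
  have h := Primrec.list_map (Primrec.list_range) ((Primrec.const x).to₂ (α := ℕ) (β := ℕ))
  refine h.of_eq fun n => ?_
  rw [List.map_const', List.length_range]

theorem main_ideal {S : ℕ → Prop} (P : Pen S) {m : ℕ} (f : Gen P.γ P.J ≃ Fin m) (K : Type)
    [Field K] [CharZero K] (E : Set (Fr K ℕ)) (hE : ContainsW E) (n : ℕ) :
    InIdeal E {g | ∃ r ∈ (rl P).map fun c => c.map fun q => (q.1, Wd.map f q.2),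
      g = toFr (fun z : ℤ => (z : K)) r} (mon K (Wd.map f (uw P n))) ↔ S n := by
  set R : Set (Fr K (Fin m)) := {g | ∃ r ∈ (rl P).map fun c => c.map fun q => (q.1, Wd.map f q.2),
      g = toFr (fun z : ℤ => (z : K)) r} with hR
  constructor
  · intro h
    by_contra hn
    let x : Fin m → opAlg K (MvPolynomial (Vr P) K) := fun i =>
      ⟨gen P n hn K (f.symm i), gen_mem P n hn K _⟩
    have hcoe : ∀ w : Wd (Gen P.γ P.J), ((wv (x ∘ f) w : opAlg K (MvPolynomial (Vr P) K)) :
        Module.End K _) = wv (gen P n hn K) w := by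
      intro w
      refine wv_rel (fun (p : opAlg K (MvPolynomial (Vr P) K)) q => (p : Module.End K _) = q)
        (fun p q p' q' h h' => by rw [← h, ← h']; rfl) (x ∘ f) (gen P n hn K) (fun i => ?_) w
      simp [x]
    have hrel : Rels P (x ∘ f) := by
      rw [← rl_iff]
      intro c hc
      have h1 := (rl_iff P (gen P n hn K)).2 (gen_rels P n hn K) c hc
      apply Subtype.ext
      rw [ZeroMemClass.coe_zero, ← h1]
      unfold zev
      induction c with
      | nil => rfl
      | cons q c ih =>
        clear ih hc h1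
        have : ∀ c : NC ℤ (Gen P.γ P.J),
            (((c.map fun q => q.1 • wv (x ∘ f) q.2).sum : opAlg K (MvPolynomial (Vr P) K)) :
              Module.End K _) = (c.map fun q => q.1 • wv (gen P n hn K) q.2).sum := by
          intro c
          induction c with
          | nil => rfl
          | cons q c ih =>
            simp only [List.map_cons, List.sum_cons]
            rw [← ih, ← hcoe]
            rfl
        exact this (q :: c)
    have h2 := ideal_le E R (hE _ opAlg_inW) x (fun g hg => by
      obtain ⟨r, hr, rfl⟩ := hg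
      obtain ⟨c, hc, rfl⟩ := List.mem_map.1 hr
      rw [evalAt_toFr, zev_map]
      exact (rl_iff P _).2 hrel c hc) h
    rw [evalAt_mon, wv_map] at h2
    apply gen_ne P n hn K
    rw [← hcoe, h2]
    rfl
  · intro hn
    rw [← coe_zero_iff, ← coe_wv, wv_map]
    refine derive ?_ n hn
    rw [← rl_iff]
    intro c hc
    rw [← zev_map f, coe_zev, coe_zero_iff]
    exact InIdeal.rel ⟨_, List.mem_map.2 ⟨c, hc, rfl⟩, rfl⟩

theorem main : ∃ (S : ℕ → Prop) (m : ℕ) (rels : List (NC ℤ (Fin m))) (u : ℕ → Wd (Fin m)),
    REPred S ∧ ¬ ComputablePred S ∧ Computable u ∧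
    ∀ (K : Type) [Field K] [CharZero K] (E : Set (Fr K ℕ)), ContainsW E →
      (∀ n, InIdeal E {g | ∃ r ∈ rels, g = toFr (fun z : ℤ => (z : K)) r} (mon K (u n)) ↔ S n) ∧
      ∀ C : Constructive K, ¬ WordProblemDecidable C E := by
  obtain ⟨S, hS, hnc⟩ := exists_halting
  obtain ⟨P⟩ := exists_pen S hS
  obtain ⟨m, ⟨f⟩⟩ := Finite.exists_equiv_fin (Gen P.γ P.J)
  have hu : Computable fun n => Wd.map f (uw P n) := by
    have h1 : Primrec fun n : ℕ => Wd.map f (uw P n) := by
      have h2 : Primrec fun n : ℕ => ((f l', f e :: (List.replicate n (f (a P.i₀)) ++ [f r])) :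
          Wd (Fin m)) :=
        Primrec.pair (Primrec.const _) (Primrec.list_cons.comp (Primrec.const _)
          (Primrec.list_append.comp (list_rep (Fin m) (f (a P.i₀))) (Primrec.const _)))
      refine h2.of_eq fun n => ?_
      simp [uw, Wd.map]
    exact h1.to_comp
  refine ⟨S, m, (rl P).map fun c => c.map fun q => (q.1, Wd.map f q.2), fun n => Wd.map f (uw P n),
    hS, hnc, hu, ?_⟩
  intro K _ _ E hE
  have hmain := main_ideal P f K E hE
  refine ⟨hmain, ?_⟩
  intro C hC
  apply hnc
  choose cd hcd using fun z : ℤ => C.surj (z : K)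
  let rels' : List (NC ℕ (Fin m)) :=
    ((rl P).map fun c => c.map fun q => (q.1, Wd.map f q.2)).map fun c =>
      c.map fun q => (cd q.1, q.2)
  have htr : ∀ c : NC ℤ (Fin m), toFr C.ν (c.map fun q => (cd q.1, q.2)) =
      toFr (fun z : ℤ => (z : K)) c := by
    intro c
    unfold toFr
    rw [List.map_map]
    congr 1
    apply List.map_congr_left
    intro q _
    simp [hcd]
  have hset : {g : Fr K (Fin m) | ∃ r ∈ rels', g = toFr C.ν r} =
      {g | ∃ r ∈ (rl P).map fun c => c.map fun q => (q.1, Wd.map f q.2),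
        g = toFr (fun z : ℤ => (z : K)) r} := by
    ext g
    constructor
    · rintro ⟨r, hr, rfl⟩
      obtain ⟨c, hc, rfl⟩ := List.mem_map.1 hr
      exact ⟨c, hc, htr c⟩
    · rintro ⟨c, hc, rfl⟩
      exact ⟨_, List.mem_map.2 ⟨c, hc, rfl⟩, (htr c).symm⟩
  have h1 := hC m rels'
  rw [hset] at h1
  obtain ⟨g, hg, hge⟩ := ComputablePred.computable_iff.1 h1
  have h2 : Computable fun n : ℕ => ([(cd 1, Wd.map f (uw P n))] : NC ℕ (Fin m)) :=
    Computable.list_cons.comp ((Computable.const (cd 1)).pair hu) (Computable.const [])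
  have h3 : ComputablePred fun n => InIdeal E {g | ∃ r ∈ (rl P).map fun c => c.map fun q =>
      (q.1, Wd.map f q.2), g = toFr (fun z : ℤ => (z : K)) r}
      (toFr C.ν [(cd 1, Wd.map f (uw P n))]) :=
    ComputablePred.computable_iff.2 ⟨fun n => g [(cd 1, Wd.map f (uw P n))], hg.comp h2, by
      funext n
      exact congrFun hge [(cd 1, Wd.map f (uw P n))]⟩
  refine h3.of_eq fun n => ?_
  rw [← hmain n]
  have : toFr C.ν [(cd 1, Wd.map f (uw P n))] = mon K (Wd.map f (uw P n)) := by
    simp [toFr, mon, hcd]
  rw [this]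

end Pool.Agent.H533W
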